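import Pool.Agent.H123Z.GSC.Defs2

set_option autoImplicit false
set_option linter.all false

namespace Pool.Agent.H123Z.GSC

open Finset PowerSeries

namespace H303R

section Alg

variable {G : Type} [Group G] [Fintype G]

theorem coeff_mul_mono {x y z : MonoidAlgebra ℝ G} (hx : ∀ g, 0 ≤ x.coeff g)
    (h : ∀ g, y.coeff g ≤ z.coeff g) (g : G) : (x * y).coeff g ≤ (x * z).coeff g := by
  rw [coeff_mul_sum, coeff_mul_sum]
  exact Finset.sum_le_sum fun k _ => mul_le_mul_of_nonneg_left (h _) (hx _)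

theorem coeff_mul_nonneg {x y : MonoidAlgebra ℝ G} (hx : ∀ g, 0 ≤ x.coeff g)
    (hy : ∀ g, 0 ≤ y.coeff g) (g : G) : 0 ≤ (x * y).coeff g := by
  rw [coeff_mul_sum]
  exact Finset.sum_nonneg fun k _ => mul_nonneg (hx _) (hy _)

theorem coeff_mul_pos {x y : MonoidAlgebra ℝ G} (hx : ∀ g, 0 < x.coeff g)
    (hy : ∀ g, 0 < y.coeff g) (g : G) : 0 < (x * y).coeff g := by
  rw [coeff_mul_sum]
  exact Finset.sum_pos (fun k _ => mul_pos (hx _) (hy _)) Finset.univ_nonempty

theorem coeff_mul_lower {x y : MonoidAlgebra ℝ G} (hx : ∀ g, 0 ≤ x.coeff g) (c t : ℝ)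
    (hy : ∀ g, c ≤ y.coeff g * t) (g : G) : (∑ h, x.coeff h) * c ≤ (x * y).coeff g * t := by
  rw [coeff_mul_sum, Finset.sum_mul, Finset.sum_mul]
  refine Finset.sum_le_sum fun k _ => ?_
  rw [mul_assoc]
  exact mul_le_mul_of_nonneg_left (hy _) (hx _)

theorem coeff_fsum {κ : Type} (s : Finset κ) (f : κ → MonoidAlgebra ℝ G) (g : G) :
    (∑ i ∈ s, f i).coeff g = ∑ i ∈ s, (f i).coeff g := by
  rw [MonoidAlgebra.coeff_sum, Finsupp.finset_sum_apply]

theorem supermul (a u : ℕ → MonoidAlgebra ℝ G) (ha0 : a 0 = 0) (ha : ∀ m g, 0 ≤ (a m).coeff g)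
    (hu : ∀ m g, 0 ≤ (u m).coeff g) (hu0 : u 0 = 1)
    (hrec : ∀ k, 0 < k → u k = ∑ m ∈ range (k + 1), a m * u (k - m)) (j : ℕ) :
    ∀ i g, (u i * u j).coeff g ≤ (u (i + j)).coeff g := by
  intro i
  induction i using Nat.strong_induction_on with
  | _ i ih =>
    intro g
    rcases Nat.eq_zero_or_pos i with h | h
    · subst h
      rw [hu0, one_mul, zero_add]
    · rw [hrec i h, hrec (i + j) (by omega), Finset.sum_mul, coeff_fsum, coeff_fsum]
      calc ∑ m ∈ range (i + 1), (a m * u (i - m) * u j).coeff g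
          ≤ ∑ m ∈ range (i + 1), (a m * u (i + j - m)).coeff g := by
            refine Finset.sum_le_sum fun m hm => ?_
            rw [Finset.mem_range] at hm
            rcases Nat.eq_zero_or_pos m with h0 | h0
            · subst h0
              rw [ha0]
              simp
            · rw [mul_assoc]
              refine coeff_mul_mono (ha m) (fun g' => ?_) g
              have := ih (i - m) (by omega) g'
              rwa [show i - m + j = i + j - m by omega] at this
        _ ≤ ∑ m ∈ range (i + j + 1), (a m * u (i + j - m)).coeff g :=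
            Finset.sum_le_sum_of_subset_of_nonneg (Finset.range_mono (by omega))
              fun m _ _ => coeff_mul_nonneg (ha m) (hu _) g

theorem full_all (a u : ℕ → MonoidAlgebra ℝ G) (ha0 : a 0 = 0) (ha : ∀ m g, 0 ≤ (a m).coeff g)
    (hu : ∀ m g, 0 ≤ (u m).coeff g) (hu0 : u 0 = 1)
    (hrec : ∀ k, 0 < k → u k = ∑ m ∈ range (k + 1), a m * u (k - m)) (k1 L : ℕ) (hk1 : 1 ≤ k1)
    (hL : 2 * k1 + 1 ≤ L) (hf : ∀ k, k1 ≤ k → k < L → ∀ g, 0 < (u k).coeff g) :
    ∀ k, k1 ≤ k → ∀ g, 0 < (u k).coeff g := by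
  intro k
  induction k using Nat.strong_induction_on with
  | _ k ih =>
    intro hk g
    by_cases h : k < L
    · exact hf k hk h g
    · have h1 := supermul a u ha0 ha hu hu0 hrec (k - k1) k1 g
      rw [show k1 + (k - k1) = k by omega] at h1
      exact lt_of_lt_of_le (coeff_mul_pos (hf k1 le_rfl (by omega))
        (ih (k - k1) (by omega) (by omega)) g) h1

theorem lower_all (a u : ℕ → MonoidAlgebra ℝ G) (ha0 : a 0 = 0) (ha : ∀ m g, 0 ≤ (a m).coeff g)
    (hu : ∀ m g, 0 ≤ (u m).coeff g)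
    (hrec : ∀ k, 0 < k → u k = ∑ m ∈ range (k + 1), a m * u (k - m)) (k1 L : ℕ) (hL : 0 < L)
    (y : ℝ) (hy : 0 < y) (hs : ∑ m ∈ range L, (∑ h, (a m).coeff h) * y ^ m = 1)
    (hf : ∀ k, k1 ≤ k → ∀ g, 0 < (u k).coeff g) :
    ∃ c : ℝ, 0 < c ∧ ∀ k, k1 ≤ k → ∀ g, c ≤ (u k).coeff g * y ^ k := by
  obtain ⟨z, hz, hmin⟩ := Finset.exists_min_image ((range L) ×ˢ (Finset.univ : Finset G))
    (fun z => (u (k1 + z.1)).coeff z.2 * y ^ (k1 + z.1))
    ⟨(0, 1), by simp [hL]⟩
  set c := (u (k1 + z.1)).coeff z.2 * y ^ (k1 + z.1) with hc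
  have hc0 : 0 < c := mul_pos (hf (k1 + z.1) (by omega) z.2) (pow_pos hy _)
  refine ⟨c, hc0, ?_⟩
  intro k
  induction k using Nat.strong_induction_on with
  | _ k ih =>
    intro hk g
    by_cases h : k < k1 + L
    · have := hmin (k - k1, g) (by simp; omega)
      simp only at this
      rwa [show k1 + (k - k1) = k by omega] at this
    · rw [hrec k (by omega), coeff_fsum, Finset.sum_mul]
      calc c = ∑ m ∈ range L, (∑ h, (a m).coeff h) * c * y ^ m := by
            conv_lhs => rw [← one_mul c, ← hs, Finset.sum_mul]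
            exact Finset.sum_congr rfl fun m _ => by ring
        _ ≤ ∑ m ∈ range L, (a m * u (k - m)).coeff g * y ^ k := by
            refine Finset.sum_le_sum fun m hm => ?_
            rw [Finset.mem_range] at hm
            rcases Nat.eq_zero_or_pos m with h0 | h0
            · subst h0
              rw [ha0]
              simp
            · have h1 := coeff_mul_lower (ha m) c (y ^ (k - m)) (ih (k - m) (by omega) (by omega)) g
              have h2 : y ^ k = y ^ (k - m) * y ^ m := by rw [← pow_add]; congr 1; omega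
              rw [h2, ← mul_assoc ((a m * u (k - m)).coeff g)]
              exact mul_le_mul_of_nonneg_right h1 (pow_pos hy _).le
        _ ≤ ∑ m ∈ range (k + 1), (a m * u (k - m)).coeff g * y ^ k :=
            Finset.sum_le_sum_of_subset_of_nonneg (Finset.range_mono (by omega))
              fun m _ _ => mul_nonneg (coeff_mul_nonneg (ha m) (hu _) g) (pow_pos hy _).le

end Alg

section Mat

variable {ι G : Type} [Fintype ι] [DecidableEq ι] [Group G] [Fintype G]

theorem row_zero (o : ι) (X : MA ι G) (h : Matrix.single o o 1 * X = X) (i j : ι) (hi : i ≠ o) :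
    X i j = 0 := by
  rw [← h, Matrix.mul_apply]
  refine Finset.sum_eq_zero fun l _ => ?_
  rw [Matrix.single_apply_of_ne _ _ _ _ _ (fun hh => hi hh.1.symm), zero_mul]

theorem col_zero (o : ι) (X : MA ι G) (h : X * Matrix.single o o 1 = X) (i j : ι) (hj : j ≠ o) :
    X i j = 0 := by
  rw [← h, Matrix.mul_apply]
  refine Finset.sum_eq_zero fun l _ => ?_
  rw [Matrix.single_apply_of_ne _ _ _ _ _ (fun hh => hj hh.2.symm), mul_zero]

theorem norm_corner (o : ι) (X : MA ι G) (h1 : Matrix.single o o 1 * X = X)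
    (h2 : X * Matrix.single o o 1 = X) : ‖X‖ = nug (X o o) := by
  rw [norm_def, Finset.sum_eq_single o, Finset.sum_eq_single o]
  · intro j _ hj
    rw [col_zero o X h2 o j hj, nug_zero]
  · simp
  · intro i _ hi
    exact Finset.sum_eq_zero fun j _ => by rw [row_zero o X h1 i j hi, nug_zero]
  · simp

theorem mul_corner (o : ι) (X Y : MA ι G) (h2 : X * Matrix.single o o 1 = X) :
    (X * Y) o o = X o o * Y o o := by
  rw [Matrix.mul_apply, Finset.sum_eq_single o]
  · intro j _ hj
    rw [col_zero o X h2 o j hj, zero_mul]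
  · simp

theorem norm_p (o : ι) : ‖(Matrix.single o o 1 : MA ι G)‖ = 1 := by
  classical
  rw [norm_corner o _ (by rw [Matrix.single_mul_single_same, one_mul])
    (by rw [Matrix.single_mul_single_same, one_mul]), Matrix.single_apply_same]
  unfold nug
  rw [Finset.sum_eq_single 1]
  · simp [MonoidAlgebra.one_def]
  · intro g _ hg
    simp [MonoidAlgebra.one_def, Finsupp.single_apply, hg.symm]
  · simp

theorem iv_rec {R : Type} [Ring R] {q : PowerSeries R} (hq : Van 1 q) (k : ℕ) (hk : 0 < k) :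
    coeff k (iv q) = ∑ m ∈ range (k + 1), coeff m q * coeff (k - m) (iv q) := by
  conv_lhs => rw [iv_eq hq]
  rw [map_add, coeff_one, if_neg (by omega), zero_add, coeff_mul,
    Finset.Nat.sum_antidiagonal_eq_sum_range_succ_mk]

theorem iv_trn {R : Type} [Ring R] {r : PowerSeries R} (hr : Van 1 r) (L : ℕ) (hq : Van 1 (trn L r)) :
    ∀ k, k < L → coeff k (iv (trn L r)) = coeff k (iv r) := by
  intro k
  induction k using Nat.strong_induction_on with
  | _ k ih =>
    intro hk
    rcases Nat.eq_zero_or_pos k with h | h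
    · subst h
      rw [coeff_zero_iv hr, coeff_zero_iv hq]
    · rw [iv_rec hr k h, iv_rec hq k h]
      refine Finset.sum_congr rfl fun m hm => ?_
      rw [Finset.mem_range] at hm
      rw [coeff_trn, if_pos (by omega)]
      rcases Nat.eq_zero_or_pos m with h0 | h0
      · subst h0
        rw [hr 0 (by omega), zero_mul, zero_mul]
      · rw [ih (k - m) (by omega) (by omega)]

theorem upper {𝔸 : Type} [NormedRing 𝔸] (p : 𝔸) (hp : ‖p‖ ≤ 1) (q w : PowerSeries 𝔸) (hq : Van 1 q)
    (hw : w = C p + q * w) (y : ℝ) (hy : 0 < y) (hb : ∀ K, ∑ k ∈ range K, ‖coeff k q‖ * y ^ k ≤ 1) :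
    ∀ k, ‖coeff k w‖ * y ^ k ≤ 1 := by
  intro k
  induction k using Nat.strong_induction_on with
  | _ k ih =>
    rcases Nat.eq_zero_or_pos k with h | h
    · subst h
      rw [hw, map_add, (hq.mul_right w) 0 (by omega), add_zero, coeff_zero_C, pow_zero, mul_one]
      exact hp
    · have h1 : coeff k w = ∑ m ∈ range (k + 1), coeff m q * coeff (k - m) w := by
        conv_lhs => rw [hw]
        rw [map_add, coeff_C, if_neg (by omega), zero_add, coeff_mul,
          Finset.Nat.sum_antidiagonal_eq_sum_range_succ_mk]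
      rw [h1]
      refine le_trans (mul_le_mul_of_nonneg_right (norm_sum_le _ _) (pow_pos hy _).le) ?_
      rw [Finset.sum_mul]
      refine le_trans (Finset.sum_le_sum fun m hm => ?_) (hb (k + 1))
      rw [Finset.mem_range] at hm
      rcases Nat.eq_zero_or_pos m with h0 | h0
      · subst h0
        rw [hq 0 (by omega)]
        simp
      · have h2 : y ^ k = y ^ (k - m) * y ^ m := by rw [← pow_add]; congr 1; omega
        have h3 := ih (k - m) (by omega)
        calc ‖coeff m q * coeff (k - m) w‖ * y ^ k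
            ≤ ‖coeff m q‖ * ‖coeff (k - m) w‖ * y ^ k :=
              mul_le_mul_of_nonneg_right (norm_mul_le _ _) (pow_pos hy _).le
          _ = ‖coeff m q‖ * y ^ m * (‖coeff (k - m) w‖ * y ^ (k - m)) := by rw [h2]; ring
          _ ≤ ‖coeff m q‖ * y ^ m * 1 :=
              mul_le_mul_of_nonneg_left h3 (mul_nonneg (norm_nonneg _) (pow_pos hy _).le)
          _ = _ := mul_one _

end Mat

end H303R

open H303R in
theorem renewal {ι G : Type} [Fintype ι] [DecidableEq ι] [Group G] [Fintype G] (o : ι)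
    (r : PowerSeries (MA ι G)) (ρ : ℝ) (hρ0 : 0 < ρ) (hρ1 : ρ < 1) (hN : r ∈ cf (NN ι G)) (hV : Van 1 r)
    (hl : PowerSeries.C (Matrix.single o o 1) * r = r) (hr : r * PowerSeries.C (Matrix.single o o 1) = r)
    (k1 : ℕ) (hk1 : ∀ k, k1 ≤ k → ∀ g, 0 < (PowerSeries.coeff k (iv r) o o).coeff g)
    (hbig : ¬ Bd ρ r 1) (L0 : ℕ) :
    ∃ (L k2 : ℕ) (y c : ℝ), L0 ≤ L ∧ 0 < y ∧ y ≤ ρ ∧ 0 < c ∧
      (∀ k, ‖PowerSeries.coeff k (PowerSeries.C (Matrix.single o o 1) * iv (trn L r))‖ * y ^ k ≤ 1) ∧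
      ∀ k, k2 ≤ k → ∀ g, c ≤ (PowerSeries.coeff k (iv (trn L r)) o o).coeff g * y ^ k := by
  unfold Bd at hbig
  push Not at hbig
  obtain ⟨L1, hL1⟩ := hbig
  obtain ⟨L, hL0, hLL1, hLk⟩ : ∃ L, L0 ≤ L ∧ L1 ≤ L ∧ 2 * (k1 + 1) + 1 ≤ L :=
    ⟨L0 + L1 + (2 * (k1 + 1) + 1), by omega, by omega, by omega⟩
  have hbigL : 1 ≤ ∑ k ∈ range L, ‖coeff k r‖ * ρ ^ k :=
    hL1.le.trans (Finset.sum_le_sum_of_subset_of_nonneg (Finset.range_mono hLL1)
      fun k _ _ => by positivity)
  have hcont : Continuous fun y : ℝ => ∑ k ∈ range L, ‖coeff k r‖ * y ^ k := by fun_prop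
  have hz : ∑ k ∈ range L, ‖coeff k r‖ * (0 : ℝ) ^ k = 0 := by
    refine Finset.sum_eq_zero fun k _ => ?_
    rcases Nat.eq_zero_or_pos k with h | h
    · subst h
      rw [hV 0 (by omega)]
      simp
    · rw [zero_pow (by omega), mul_zero]
  obtain ⟨y, ⟨hy0, hyρ⟩, hy1⟩ := intermediate_value_Icc hρ0.le hcont.continuousOn
    (show (1 : ℝ) ∈ Set.Icc (∑ k ∈ range L, ‖coeff k r‖ * (0 : ℝ) ^ k)
      (∑ k ∈ range L, ‖coeff k r‖ * ρ ^ k) from ⟨by rw [hz]; norm_num, hbigL⟩)
  simp only at hy1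
  have hy : 0 < y := by
    rcases hy0.lt_or_eq with h | h
    · exact h
    · rw [← h, hz] at hy1
      norm_num at hy1
  have hlc : ∀ k, Matrix.single o o 1 * coeff k r = coeff k r := fun k => by
    conv_rhs => rw [← hl]
    rw [coeff_C_mul]
  have hrc : ∀ k, coeff k r * Matrix.single o o 1 = coeff k r := fun k => by
    conv_rhs => rw [← hr]
    rw [coeff_mul_C]
  set q := trn L r with hqdef
  have hqV : Van 1 q := by
    intro k hk
    rw [hqdef, coeff_trn, hV k hk]
    simp
  have hqN : q ∈ cf (NN ι G) := trn_cf hN L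
  have hqlc : ∀ k, Matrix.single o o 1 * coeff k q = coeff k q := fun k => by
    rw [hqdef, coeff_trn]
    split_ifs
    · exact hlc k
    · exact mul_zero _
  have hqrc : ∀ k, coeff k q * Matrix.single o o 1 = coeff k q := fun k => by
    rw [hqdef, coeff_trn]
    split_ifs
    · exact hrc k
    · exact zero_mul _
  have hql : C (Matrix.single o o 1) * q = q := by
    ext1 k
    rw [coeff_C_mul, hqlc]
  have hqr : q * C (Matrix.single o o 1) = q := by
    ext1 k
    rw [coeff_mul_C, hqrc]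
  have hb : ∀ K, ∑ k ∈ range K, ‖coeff k q‖ * y ^ k ≤ 1 := by
    intro K
    calc ∑ k ∈ range K, ‖coeff k q‖ * y ^ k ≤ ∑ k ∈ range (L + K), ‖coeff k q‖ * y ^ k :=
          Finset.sum_le_sum_of_subset_of_nonneg (Finset.range_mono (by omega))
            fun k _ _ => by positivity
      _ = ∑ k ∈ range L, ‖coeff k r‖ * y ^ k := by
          rw [Finset.sum_range_add, Finset.sum_eq_zero (s := range K), add_zero]
          · refine Finset.sum_congr rfl fun k hk => ?_
            rw [hqdef, coeff_trn, if_pos (Finset.mem_range.mp hk)]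
          · intro k _
            rw [hqdef, coeff_trn, if_neg (by omega)]
            simp
      _ = 1 := hy1
      _ ≤ 1 := le_rfl
  have hup := upper (Matrix.single o o 1 : MA ι G) (norm_p o).le q (C (Matrix.single o o 1) * iv q) hqV
    (by
      conv_lhs => rw [iv_eq hqV]
      rw [mul_add, mul_one, ← mul_assoc, ← mul_assoc, hql, hqr]) y hy hb
  have ha0 : coeff 0 q o o = 0 := by rw [hqV 0 (by omega)]; rfl
  have ha : ∀ m g, 0 ≤ (coeff m q o o).coeff g := fun m g => hqN m o o g
  have hu : ∀ m g, 0 ≤ (coeff m (iv q) o o).coeff g := fun m g => iv_cf hqN hqV m o o g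
  have hu0 : coeff 0 (iv q) o o = 1 := by rw [coeff_zero_iv hqV, Matrix.one_apply_eq]
  have hrec : ∀ k, 0 < k → coeff k (iv q) o o =
      ∑ m ∈ range (k + 1), coeff m q o o * coeff (k - m) (iv q) o o := by
    intro k hk
    rw [iv_rec hqV k hk, Matrix.sum_apply]
    exact Finset.sum_congr rfl fun m _ => mul_corner o _ _ (hqrc m)
  have hfull := full_all (fun m => coeff m q o o) (fun m => coeff m (iv q) o o) ha0 ha hu hu0 hrec
    (k1 + 1) L (by omega) hLk (by
      intro k hk hkL g
      have h1 := hk1 k (by omega) g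
      rw [← iv_trn hV L hqV k hkL] at h1
      exact h1)
  obtain ⟨c, hc, hlow⟩ := lower_all (fun m => coeff m q o o) (fun m => coeff m (iv q) o o) ha0 ha hu hrec
    (k1 + 1) L (by omega) y hy (by
      rw [← hy1]
      refine Finset.sum_congr rfl fun m hm => ?_
      congr 1
      have h1 : coeff m q = coeff m r := by rw [hqdef, coeff_trn, if_pos (Finset.mem_range.mp hm)]
      rw [← h1, norm_corner o _ (hqlc m) (hqrc m)]
      unfold nug
      exact Finset.sum_congr rfl fun g _ => (abs_of_nonneg (ha m g)).symm) hfull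
  exact ⟨L, k1 + 1, y, c, hL0, hy, hyρ, hc, hup, hlow⟩

end Pool.Agent.H123Z.GSC
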